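import Pool.Agent.Helper317.Sacks.Final

/-!
# The Sacks Density Theorem fails in some `IΣ₁` model

There is a model `M` of `PA⁻` with exponentiation and `IΣ₁` in which `BΣ₂` fails, and there are
c.e. sets `A`, `B` of `M` with `A < B` (for the strong reducibility) such that no c.e. degree lies
strictly between the degrees of `A` and `B`. Moreover `B` is a complete c.e. set of `M`, so `A` has
a maximal incomplete c.e. degree.

The proof in outline. In the standard model a process moves markers `x₀ < x₁ < ...`. The positions
are organised in dyadic nodes `[w, w + 2^s)` with `2^s ∣ w`. While the node of `w` is active (the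
markers up to `w`, but not all the markers of the node, are placed), the halting of a program
below `x_{w-1}` removes the marker `w` and the later ones; a new marker is placed
when all the programs of a given finite list of total programs have been run on all the inputs
up to the last marker. In a countable restricted ultrapower `N` of `ℕ` one takes, with a nonstandard list
containing all the standard total programs, a decreasing sequence of nodes (indexed by the
standard numbers) with empty intersection; the left ends of the nodes give a cut `I`, and the model is
`M = {z : z < x_r for some r ∈ I}`. The set `A` of the pairs `⟨r, z⟩` with `z ≤ x_r` is c.e. in `M`, the cut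
`I` is `Σ₁` in `A`, and every subset of the squares of the indices coded in `N` is an element of `M`. This
implies that every c.e. set `C ≥ A` is either reducible to `A` or computes the cut `I` and then
the halting problem of `M`. The halting problem is not reducible to `A`, since this would
make the cut `I` definable in `N`.
-/

namespace Pool.Agent.Results.MP_53c40f_lc.SacksDensityFails

open Pool.Agent.Helper626

theorem result : ∃ (M : Type) (_ : ArithOps M),
    PAminusExp M ∧ ISigma true 1 M ∧ ¬ BSigma true 2 M ∧
    ∃ A B : Set M, SigmaDef true 1 A ∧ SigmaDef true 1 B ∧
      (TuringLE true A B ∧ ¬ TuringLE true B A) ∧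
      (¬ ∃ C : Set M, SigmaDef true 1 C ∧
        (TuringLE true A C ∧ ¬ TuringLE true C A) ∧ (TuringLE true C B ∧ ¬ TuringLE true B C)) ∧
      ∀ C : Set M, SigmaDef true 1 C → TuringLE true C B := by
  obtain ⟨M, hM, h1, h2, h3, A, B, hA, hB, hcomp, hAB, hBA, hmin⟩ :=
    Pool.Agent.Helper317.Sacks.exists_gap
  refine ⟨M, hM, h1, h2, h3, A, B, hA, hB, ⟨hAB, hBA⟩, ?_, hcomp⟩
  rintro ⟨C, hC, ⟨hAC, hCA⟩, hCB, hBC⟩
  rcases hmin C hC hAC with h | h
  · exact hCA h
  · exact hBC h

end Pool.Agent.Results.MP_53c40f_lc.SacksDensityFails
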